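import Pool.Agent.W976.GT.Start0
import Pool.Agent.W78.GR.All

/-!
Project GT, part GT-12: the input.
-/

set_option autoImplicit false

namespace Pool.Agent.W976.GT

open Pool.Agent.W78.GT

theorem start {t c : ℤ} (hns : ¬ IsSquare (t ^ 2 - 4 * c)) : S_START t c := by
  obtain ⟨S, hS⟩ := Pool.Agent.W78.GR.both (t := t) (c := c) hns
  exact start_of_pairs (hS (-1) (Or.inr rfl)).2

end Pool.Agent.W976.GT
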