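import Pool.Agent.W78.GT.Basic

/-!
Project GT, part GT-12: the input, from the positive proportion of pairs with bounded square
factor.
-/

set_option autoImplicit false

namespace Pool.Agent.W976.GT

open Finset Filter
open Pool.Agent.W78.GT
open Pool.Agent.H376R2.MR (lam)
open ArithmeticFunction (cardFactors cardDistinctFactors moebius)

lemma cardFactors_le (s : ℕ) (hs : 1 ≤ s) : cardFactors s ≤ s := by
  rw [ArithmeticFunction.cardFactors_apply]
  have h1 : 2 ^ s.primeFactorsList.length ≤ s.primeFactorsList.prod := by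
    apply List.pow_card_le_prod
    intro p hp
    exact (Nat.prime_of_mem_primeFactorsList hp).two_le
  rw [Nat.prod_primeFactorsList (by omega)] at h1
  exact (Nat.lt_two_pow_self.trans_le h1).le

lemma sq_facts {S : ℕ} {x : ℕ} (hx : Pool.Agent.W78.GA.SqM S (-1) (x : ℤ)) :
    exc x ≤ 2 * S ∧ lam x = -1 := by
  obtain ⟨s, m, hs1, hsS, hxm, hm⟩ := hx
  have hx' : x = s ^ 2 * m := by exact_mod_cast hxm
  have hsq : Squarefree m := by
    rw [← ArithmeticFunction.moebius_ne_zero_iff_squarefree, hm]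
    norm_num
  have hm0 : m ≠ 0 := hsq.ne_zero
  have hs0 : s ≠ 0 := by omega
  have hs2 : s ^ 2 ≠ 0 := pow_ne_zero _ hs0
  rw [hx']
  constructor
  · unfold exc
    rw [ArithmeticFunction.cardFactors_mul hs2 hm0, ArithmeticFunction.cardFactors_pow]
    have h1 : cardDistinctFactors m ≤ cardDistinctFactors (s ^ 2 * m) := by
      rw [ArithmeticFunction.cardDistinctFactors_apply, ArithmeticFunction.cardDistinctFactors_apply,
        ← List.card_toFinset, ← List.card_toFinset]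
      exact Finset.card_le_card (Nat.primeFactors_mono (Dvd.intro_left _ rfl) (mul_ne_zero hs2 hm0))
    have h2 : cardDistinctFactors m = cardFactors m :=
      (ArithmeticFunction.cardDistinctFactors_eq_cardFactors_iff_squarefree hm0).2 hsq
    have h3 := cardFactors_le s hs1
    omega
  · rw [Pool.Agent.W78.GA.lam_sq_mul hs0 hm0]
    rw [ArithmeticFunction.moebius_apply_of_squarefree hsq] at hm
    exact hm

theorem start_of_pairs {t c : ℤ} {S : ℕ}
    (h : ∃ κ : ℝ, 0 < κ ∧ ∃ N₀ : ℕ, ∀ N : ℕ, N₀ ≤ N → κ * N ≤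
      (Set.ncard {p : ℕ × ℕ | 1 ≤ p.1 ∧ p.1 ≤ N ∧ 1 ≤ p.2 ∧ p.2 ≤ N ∧
        (∃ n : ℤ, ((p.1 * p.2 : ℕ) : ℤ) = n ^ 2 + t * n + c) ∧
        Pool.Agent.W78.GA.SqM S (-1) ((p.1 * p.2 : ℕ) : ℤ)} : ℝ)) : S_START t c := by
  classical
  obtain ⟨κ, hκ, N₀, hN⟩ := h
  refine ⟨2 * S, κ / 2, by linarith, max (N₀ + 1) 2, fun X hX => ?_⟩
  have hX1 : (N₀ : ℝ) + 1 ≤ X := (le_max_left _ _).trans hX
  have hX2 : (2 : ℝ) ≤ X := (le_max_right _ _).trans hX
  set N := ⌊X⌋₊ with hNdef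
  have hNX : (N : ℝ) ≤ X := Nat.floor_le (by linarith)
  have hNX' : X < N + 1 := Nat.lt_floor_add_one X
  have hN0 : N₀ ≤ N := by
    apply Nat.le_floor
    linarith
  have h1 := hN N hN0
  have h2 : κ / 2 * X ≤ κ * N := by nlinarith
  refine (h2.trans h1).trans ?_
  set P : Set (ℕ × ℕ) := {p : ℕ × ℕ | 1 ≤ p.1 ∧ p.1 ≤ N ∧ 1 ≤ p.2 ∧ p.2 ≤ N ∧
        (∃ n : ℤ, ((p.1 * p.2 : ℕ) : ℤ) = n ^ 2 + t * n + c) ∧
        Pool.Agent.W78.GA.SqM S (-1) ((p.1 * p.2 : ℕ) : ℤ)} with hP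
  have hex : ∀ p : ℕ × ℕ, ∃ n : ℤ, p ∈ P → (p.1, n, p.2) ∈ Bk t c (2 * S) (-1) X := by
    intro p
    by_cases hp : p ∈ P
    · obtain ⟨p1, p2, p3, p4, ⟨n, hn⟩, p6⟩ := hp
      have key : ∀ n' : ℤ, ((p.1 * p.2 : ℕ) : ℤ) = n' ^ 2 + t * n' + c → 0 ≤ 2 * n' + t →
          (p.1, n', p.2) ∈ Bk t c (2 * S) (-1) X := by
        intro n' hn' h0
        unfold Bk
        rw [mem_filter, mem_tri]
        refine ⟨⟨p1, ?_, p3, ?_, ?_, h0⟩, ?_⟩
        · exact le_trans (by exact_mod_cast p2) hNX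
        · exact le_trans (by exact_mod_cast p4) hNX
        · unfold Qp
          rw [← hn']
          push_cast
          rfl
        · exact sq_facts p6
      by_cases h0 : 0 ≤ 2 * n + t
      · exact ⟨n, fun _ => key n hn h0⟩
      · refine ⟨-t - n, fun _ => key _ ?_ (by linarith)⟩
        rw [hn]
        ring
    · exact ⟨0, fun h => absurd h hp⟩
  choose g hg using hex
  have h3 : P.ncard ≤ (Bk t c (2 * S) (-1) X).card := by
    rw [← Set.ncard_coe_finset]
    refine Set.ncard_le_ncard_of_injOn (fun p => (p.1, g p, p.2)) (fun p hp => hg p hp) ?_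
      (Finset.finite_toSet _)
    intro p _ p' _ hpp
    have h4 : (p.1, g p, p.2) = (p'.1, g p', p'.2) := hpp
    simp only [Prod.mk.injEq] at h4
    exact Prod.ext h4.1 h4.2.2
  exact_mod_cast h3

end Pool.Agent.W976.GT
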